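import Pool.Agent.H57.MC.Fin

/-! The movable cone conjecture holds for `Y` if and only if there is one rational polyhedral cone of
effective movable classes with one birational automorphism for each of its (finitely many) walls.

New: `Pool.Agent.H57.MC` (segments which leave a union of polyhedral cones, local finiteness, the
covering theorem, the walls of the Dirichlet domains). The cones of `Y`
(`Pool.Agent.K1H17.MC.Defs`) and the passage to the boundary of the movable cone
(`Pool.Agent.K1H17.MC.Bg`) are from the hand-ins `FiniteQuotients` and `BigClasses` of the library. -/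

set_option autoImplicit false
set_option linter.overlappingInstances false

open FF Pool.Agent.K1H17.MC Pool.Agent.H57.MC

namespace Pool.Agent.Results.MP_e39d36_ag.WallCriterion

variable {K : Type} [Field K] [Algebra ℂ K] {P : Set (Place ℂ K)}

/-- `ℓ` defines a wall of the cone `Q`: it is a nonzero linear form on `N¹(Y)` which is nonnegative
on `Q`, and the classes of `Q` on which it vanishes span its kernel. (A rational polyhedral cone has
finitely many walls.) -/
def IsWall (Q : Set (N1 P)) (ℓ : N1 P →ₗ[ℝ] ℝ) : Prop :=
  ℓ ≠ 0 ∧ (∀ x ∈ Q, 0 ≤ ℓ x) ∧ ∀ x, ℓ x = 0 → x ∈ Submodule.span ℝ {y | y ∈ Q ∧ ℓ y = 0}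

/-- The wall of `Q` defined by `ℓ` contains a class in the interior of the movable cone of `Y`. -/
def IsInner (Q : Set (N1 P)) (ℓ : N1 P →ₗ[ℝ] ℝ) : Prop :=
  ∃ x ∈ Q, ℓ x = 0 ∧ x ∈ inn (MovE P)

/-- The automorphism `g` crosses the wall of `Q` defined by `ℓ`: the wall is contained in `g Q`, and
`g Q` contains a class on the other side of the wall. -/
def Crosses (g : psAut P) (Q : Set (N1 P)) (ℓ : N1 P →ₗ[ℝ] ℝ) : Prop :=
  (∀ x ∈ Q, ℓ x = 0 → x ∈ act g '' Q) ∧ ∃ p ∈ act g '' Q, ℓ p < 0

/-- The cones `Q i` can be continued across their inner walls: each class in the interior of the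
movable cone which lies on a wall of one of them is in a translate of one of them which contains a
class on the other side of the wall. -/
def Continues {κ : Type} (Q : κ → Set (N1 P)) : Prop :=
  ∀ i (ℓ : N1 P →ₗ[ℝ] ℝ), IsWall (Q i) ℓ → ∀ x ∈ Q i, ℓ x = 0 → x ∈ inn (MovE P) →
    ∃ (g : psAut P) (j : κ), x ∈ act g '' Q j ∧ ∃ p ∈ act g '' Q j, ℓ p < 0

/-- Let `P` be the set of the prime divisors of a smooth projective variety `Y` with `K_Y ≡ 0`, with
function field `K` (used are only: there is an ample divisor, and the theorem of the base).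

(A) The following are equivalent:
 (1) the movable cone conjecture holds for `Y`;
 (2) there is a rational polyhedral cone `Q` of effective classes in the closed movable cone, with an
     interior point, such that each inner wall of `Q` is crossed by a birational automorphism;
 (3) there are finitely many rational polyhedral cones of effective classes in the closed movable
     cone, one of them with an interior point, which can be continued across their inner walls.

(B) If finitely many rational polyhedral cones in the closed movable cone, one of them with an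
interior point, can be continued across their inner walls, then their translates under birational
automorphisms cover the effective movable cone.

It is not assumed that the translates of the cones are locally finite, that they do not overlap, or
that they cover any part of the movable cone. -/
theorem result (hample : HasAmple P) (hbase : HasBase P) :
    List.TFAE [MovableConeConjecture P,
      ∃ Q : Set (N1 P), RP (lat P) Q ∧ Q ⊆ MovE P ∧ (inn Q).Nonempty ∧
        ∀ ℓ, IsWall Q ℓ → IsInner Q ℓ → ∃ g : psAut P, Crosses g Q ℓ,
      ∃ (n : ℕ) (Q : Fin n → Set (N1 P)), (∀ i, RP (lat P) (Q i)) ∧ (∀ i, Q i ⊆ MovE P) ∧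
        (∃ i, (inn (Q i)).Nonempty) ∧ Continues Q] ∧
    ∀ (n : ℕ) (Q : Fin n → Set (N1 P)), (∀ i, RP (lat P) (Q i)) → (∀ i, Q i ⊆ clo (Mov P)) →
      (∃ i, (inn (Q i)).Nonempty) → Continues Q →
        MovE P ⊆ ⋃ (g : psAut P) (i : Fin n), act g '' Q i := by
  refine ⟨?_, fun n Q hQ hQM hne hw x hx => ?_⟩
  · tfae_have 1 → 2 := fun h => walls_mov hample hbase h
    tfae_have 2 → 3 := by
      rintro ⟨Q, hQ, hQE, hne, hw⟩
      refine ⟨1, fun _ => Q, fun _ => hQ, fun _ => hQE, ⟨0, hne⟩, fun i ℓ hℓ x hx hx0 hxi => ?_⟩
      obtain ⟨g, h1, h2⟩ := hw ℓ hℓ ⟨x, hx, hx0, hxi⟩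
      exact ⟨g, 0, h1 x hx hx0, h2⟩
    tfae_have 3 → 1 := by
      rintro ⟨n, Q, hQ, hQE, hne, hw⟩
      exact (cover_mov hample hbase hQ (fun i x hx => (hQE i hx).1) hne hw).2
        fun i x hx => (hQE i hx).2
    tfae_finish
  · obtain ⟨g, i, h⟩ := (cover_mov hample hbase hQ hQM hne hw).1 x hx
    exact Set.mem_iUnion₂.2 ⟨g, i, h⟩

end Pool.Agent.Results.MP_e39d36_ag.WallCriterion
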